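import Pool.Agent.helper60.DA.SpecW

/-!
# Row dw:JN (MP_fb2c2a_nt)
-/

namespace Pool.Agent.helper60.DA

open Polynomial Finset Pool.Agent.helper60.DK

theorem JN_aux1 (p : ℕ) : (St p).natDegree ≤ 3 * hh p := by
  unfold St
  apply natDegree_sum_le_of_forall_le
  intro i hi
  have := mem_range.mp hi
  exact (natDegree_C_mul_X_pow_le _ _).trans (by omega)

/-- Row dw:JN. -/
theorem JN (hRV : RV_stmt) (hJR : JR_stmt) (hJST : JST_stmt) : JN_stmt := by
  intro p _ hp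
  obtain ⟨Z, hZ⟩ := hJST p hp
  have h1 := hJR (hh p) (St p) (JN_aux1 p)
  have h2 := (hRV ℤ).2.2.1 (6 * hh p + 3) ((p : ℤ) ^ 2) Z
  rw [hZ, h2] at h1
  have hpp : (2 * (hh p : ℤ) + 1) = (p : ℤ) := by
    have := two_hh (p := p) (by omega)
    exact_mod_cast this
  rw [hpp] at h1
  have hodd : IsCoprime (4 : ℤ) ((p : ℤ) ^ 2) := by
    have hpr : p.Prime := Fact.out
    have h2p : Nat.Coprime 2 p := by
      rw [Nat.coprime_primes Nat.prime_two hpr]
      omega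
    have h4 : IsCoprime ((2 : ℤ) ^ 2) ((p : ℤ) ^ 2) := by
      apply IsCoprime.pow
      rw [← Nat.isCoprime_iff_coprime] at h2p
      exact_mod_cast h2p
    norm_num at h4
    exact h4
  have hdiv : C (4 : ℤ) ∣ rv (6 * hh p + 3) Z := by
    rw [C_dvd_iff_dvd_coeff]
    intro i
    have h3 := congrArg (fun f : ℤ[X] => coeff f i) h1
    beta_reduce at h3
    have h4 : (4 : ℤ[X]) = C (4 : ℤ) := by norm_num
    rw [h4, coeff_C_mul, coeff_C_mul] at h3
    exact hodd.dvd_of_dvd_mul_left ⟨_, h3⟩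
  obtain ⟨Y, hY⟩ := hdiv
  refine ⟨Y, ?_⟩
  rw [hY] at h1
  have h4 : (C (4 : ℤ) : ℤ[X]) ≠ 0 := by
    rw [Ne, C_eq_zero]; norm_num
  apply mul_left_cancel₀ h4
  have h5 : (4 : ℤ[X]) = C (4 : ℤ) := by norm_num
  rw [← h5] at h1 ⊢
  have : Nz p = rv (3 * hh p) (St p) := rfl
  rw [this, ← h1]
  ring

end Pool.Agent.helper60.DA
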